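import Pool.Agent.N641.VB.Stm2

set_option autoImplicit false

/-!
# Project VB, leaf ST3: countably many codes

The measurability of formulas (`meas_realize`) is copied from `Pool/Agent/N649/KA/FO.lean` (helper649).
-/

namespace Pool.Agent.N765.VB.ST3

open Set MeasureTheory FirstOrder FirstOrder.Language
open Pool.Agent.N641.VB

variable {L : FirstOrder.Language.{0, 0}}

section meas

variable {Y : Type} [MeasurableSpace Y]

/-- values of terms are measurable -/
theorem meas_term {f : Y → L.Structure ℕ}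
    (hF : ∀ (n : ℕ) (F : L.Functions n) (v : Fin n → ℕ) (b : ℕ),
      MeasurableSet {y | @Structure.funMap L ℕ (f y) n F v = b}) {β : Type}
    (c : β → ℕ) (t : L.Term β) : ∀ b : ℕ,
      MeasurableSet {y | @Term.realize L ℕ (f y) _ c t = b} := by
  induction t with
  | var i =>
    intro b
    show MeasurableSet {_y : Y | c i = b}
    exact MeasurableSet.const _
  | @func n g ts ih =>
    intro b
    have e1 : {y | @Term.realize L ℕ (f y) _ c (Term.func g ts) = b} =
        ⋃ v : Fin n → ℕ, ((⋂ i, {y | @Term.realize L ℕ (f y) _ c (ts i) = v i}) ∩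
          {y | @Structure.funMap L ℕ (f y) n g v = b}) := by
      ext y
      simp only [mem_iUnion, mem_inter_iff, mem_iInter]
      constructor
      · intro h
        exact ⟨fun i => @Term.realize L ℕ (f y) _ c (ts i), fun i => rfl, h⟩
      · rintro ⟨v, h1, h2⟩
        have h3 : (fun i => @Term.realize L ℕ (f y) _ c (ts i)) = v := funext h1
        show @Structure.funMap L ℕ (f y) n g (fun i => @Term.realize L ℕ (f y) _ c (ts i)) = b
        rw [h3]
        exact h2
    rw [e1]
    exact MeasurableSet.iUnion fun v => (MeasurableSet.iInter fun i => ih i (v i)).inter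
      (hF n g v b)

/-- satisfaction is measurable -/
theorem meas_realize {f : Y → L.Structure ℕ}
    (hF : ∀ (n : ℕ) (F : L.Functions n) (v : Fin n → ℕ) (b : ℕ),
      MeasurableSet {y | @Structure.funMap L ℕ (f y) n F v = b})
    (hf : ∀ (n : ℕ) (R : L.Relations n) (v : Fin n → ℕ),
      MeasurableSet {y | @Structure.RelMap L ℕ (f y) n R v}) {β : Type} {n : ℕ}
    (φ : L.BoundedFormula β n) (c : β → ℕ) (d : Fin n → ℕ) :
    MeasurableSet {y | @BoundedFormula.Realize L ℕ (f y) _ _ φ c d} := by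
  induction φ with
  | falsum =>
    have e1 : {y : Y | @BoundedFormula.Realize L ℕ (f y) _ _ BoundedFormula.falsum c d} = ∅ := rfl
    rw [e1]
    exact MeasurableSet.empty
  | @equal n t1 t2 =>
    have e1 : {y : Y | @BoundedFormula.Realize L ℕ (f y) _ _ (BoundedFormula.equal t1 t2) c d} =
        ⋃ b : ℕ, ({y | @Term.realize L ℕ (f y) _ (Sum.elim c d) t1 = b} ∩
          {y | @Term.realize L ℕ (f y) _ (Sum.elim c d) t2 = b}) := by
      ext y
      simp only [mem_iUnion, mem_inter_iff]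
      constructor
      · intro h
        have h1 : @Term.realize L ℕ (f y) _ (Sum.elim c d) t1 =
          @Term.realize L ℕ (f y) _ (Sum.elim c d) t2 := h
        exact ⟨_, rfl, h1.symm⟩
      · rintro ⟨b, h1, h2⟩
        show @Term.realize L ℕ (f y) _ (Sum.elim c d) t1 =
          @Term.realize L ℕ (f y) _ (Sum.elim c d) t2
        exact Eq.trans h1 (Eq.symm h2)
    rw [e1]
    exact MeasurableSet.iUnion fun b => (meas_term hF _ _ b).inter (meas_term hF _ _ b)
  | @rel n l R ts =>
    have e1 : {y : Y | @BoundedFormula.Realize L ℕ (f y) _ _ (BoundedFormula.rel R ts) c d} =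
        ⋃ v : Fin l → ℕ, ((⋂ i, {y | @Term.realize L ℕ (f y) _ (Sum.elim c d) (ts i) = v i}) ∩
          {y | @Structure.RelMap L ℕ (f y) l R v}) := by
      ext y
      simp only [mem_iUnion, mem_inter_iff, mem_iInter]
      constructor
      · intro h
        exact ⟨fun i => @Term.realize L ℕ (f y) _ (Sum.elim c d) (ts i), fun i => rfl, h⟩
      · rintro ⟨v, h1, h2⟩
        have h3 : (fun i => @Term.realize L ℕ (f y) _ (Sum.elim c d) (ts i)) = v := funext h1
        show @Structure.RelMap L ℕ (f y) l R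
          (fun i => @Term.realize L ℕ (f y) _ (Sum.elim c d) (ts i))
        rw [h3]
        exact h2
    rw [e1]
    exact MeasurableSet.iUnion fun v => (MeasurableSet.iInter fun i =>
      meas_term hF _ _ (v i)).inter (hf l R v)
  | @imp n f1 f2 h1 h2 =>
    have e1 : {y : Y | @BoundedFormula.Realize L ℕ (f y) _ _ (f1.imp f2) c d} =
        {y | @BoundedFormula.Realize L ℕ (f y) _ _ f1 c d}ᶜ ∪
          {y | @BoundedFormula.Realize L ℕ (f y) _ _ f2 c d} := by
      ext y
      show (_ → _) ↔ (¬ _) ∨ _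
      exact imp_iff_not_or
    rw [e1]
    exact (h1 d).compl.union (h2 d)
  | @all n g h =>
    have e1 : {y : Y | @BoundedFormula.Realize L ℕ (f y) _ _ g.all c d} =
        ⋂ k : ℕ, {y | @BoundedFormula.Realize L ℕ (f y) _ _ g c (Fin.snoc d k)} := by
      ext y
      rw [mem_iInter]
      exact Iff.rfl
    rw [e1]
    exact MeasurableSet.iInter fun k => h (Fin.snoc d k)

end meas

/-! ### Invariance under bijections -/

section inv

variable (f : ℕ ≃ ℕ) (le : ℕ → ℕ → Prop)

theorem Dif_inv (a b c : ℕ) : Dif (fun x y => le (f x) (f y)) a b c ↔ Dif le (f a) (f b) (f c) := by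
  refine and_congr Iff.rfl (and_congr Iff.rfl (and_congr ?_ ?_))
  · refine Iff.trans ?_ f.surjective.forall.symm
    refine forall_congr' fun d => imp_congr Iff.rfl (imp_congr Iff.rfl ?_)
    refine Iff.trans ?_ f.surjective.forall.symm
    exact Iff.rfl
  · refine Iff.trans ?_ f.surjective.forall.symm
    exact Iff.rfl

theorem tpc_inv {M : Type} (mu : ℕ → M) : ∀ (k a : ℕ),
    tpc (fun x y => le (f x) (f y)) (fun x => mu (f x)) k a = tpc le mu k (f a)
  | 0, a => propext (Iff.trans Iff.rfl f.surjective.forall.symm)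
  | k + 1, a => by
    refine Prod.ext rfl (Set.ext fun q => ?_)
    show (∃ b c, Dif (fun x y => le (f x) (f y)) a b c ∧
      q = (tpc (fun x y => le (f x) (f y)) (fun x => mu (f x)) k b,
        tpc (fun x y => le (f x) (f y)) (fun x => mu (f x)) k c)) ↔
      ∃ b c, Dif le (f a) b c ∧ q = (tpc le mu k b, tpc le mu k c)
    refine Iff.trans ?_ f.surjective.exists.symm
    refine exists_congr fun b => ?_
    refine Iff.trans ?_ f.surjective.exists.symm
    refine exists_congr fun c => ?_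
    rw [Dif_inv, tpc_inv mu k b, tpc_inv mu k c]

theorem DDc_inv (D0 : ℕ → Prop) : ∀ (n a : ℕ),
    DDc (fun x y => le (f x) (f y)) (fun x => D0 (f x)) n a ↔ DDc le D0 n (f a)
  | 0, a => Iff.rfl
  | n + 1, a => by
    have ih := DDc_inv D0 n
    show (∃ s : Finset ℕ, (∀ c ∈ s, ∀ d e, Dif (fun x y => le (f x) (f y)) c d e →
        DDc (fun x y => le (f x) (f y)) (fun x => D0 (f x)) n d ∨
        DDc (fun x y => le (f x) (f y)) (fun x => D0 (f x)) n e) ∧
      ∀ u, (∀ c ∈ s, le (f c) (f u)) → le (f a) (f u)) ↔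
      ∃ s : Finset ℕ, (∀ c ∈ s, ∀ d e, Dif le c d e → DDc le D0 n d ∨ DDc le D0 n e) ∧
        ∀ u, (∀ c ∈ s, le c u) → le (f a) u
    refine Iff.trans ?_ (Equiv.finsetCongr f).surjective.exists.symm
    refine exists_congr fun s => ?_
    have h1 : ∀ p : ℕ → Prop, (∀ c ∈ (Equiv.finsetCongr f) s, p c) ↔ ∀ c ∈ s, p (f c) := by
      intro p
      rw [Equiv.finsetCongr_apply]
      constructor
      · intro h c hc
        exact h _ (Finset.mem_map_of_mem _ hc)
      · intro h c hc
        obtain ⟨b, hb, rfl⟩ := Finset.mem_map.1 hc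
        exact h b hb
    rw [h1]
    refine and_congr ?_ ?_
    · refine forall_congr' fun c => forall_congr' fun _ => ?_
      refine Iff.trans ?_ f.surjective.forall.symm
      refine forall_congr' fun d => ?_
      refine Iff.trans ?_ f.surjective.forall.symm
      refine forall_congr' fun e => ?_
      rw [Dif_inv, ih d, ih e]
    · refine Iff.trans ?_ f.surjective.forall.symm
      refine forall_congr' fun u => ?_
      rw [h1]

theorem ALc_inv (D0 : ℕ → Prop) (n a : ℕ) :
    ALc (fun x y => le (f x) (f y)) (fun x => D0 (f x)) n a ↔ ALc le D0 n (f a) := by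
  refine Iff.trans ?_ f.surjective.forall.symm
  refine forall_congr' fun c => ?_
  refine imp_congr Iff.rfl (imp_congr (not_congr (DDc_inv f le D0 n c)) ?_)
  refine Iff.trans ?_ f.surjective.exists.symm
  refine exists_congr fun d => ?_
  refine Iff.trans ?_ f.surjective.exists.symm
  refine exists_congr fun e => ?_
  rw [Dif_inv, DDc_inv, DDc_inv]

theorem PPc_inv (D0 : ℕ → Prop) (n a : ℕ) :
    PPc (fun x y => le (f x) (f y)) (fun x => D0 (f x)) n a ↔ PPc le D0 n (f a) := by
  refine and_congr (not_congr (DDc_inv f le D0 n a)) (and_congr (ALc_inv f le D0 n a) ?_)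
  refine Iff.trans ?_ f.surjective.forall.symm
  refine forall_congr' fun c => imp_congr Iff.rfl (forall_congr' fun m =>
    imp_congr Iff.rfl ?_)
  exact imp_congr (ALc_inv f le D0 m c) (DDc_inv f le D0 n c)

end inv

/-! ### The relations of a structure -/

open Classical in
/-- the unique value with the property `P`, or zero -/
noncomputable def pick {M : Type} [Zero M] (P : M → Prop) : M :=
  if h : ∃! c, P c then h.choose else 0

theorem pick_eq {M : Type} [Zero M] (c : M) : pick (fun d => c = d) = c := by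
  have h : ∃! d, c = d := ⟨c, rfl, fun d hd => hd.symm⟩
  unfold pick
  rw [dif_pos h]
  exact h.choose_spec.1.symm

theorem meas_pick {Y M : Type} [MeasurableSpace Y] [Finite M] [Zero M] (P : Y → M → Prop)
    (h : ∀ c, MeasurableSet {y | P y c}) (v : M) : MeasurableSet {y | pick (P y) = v} := by
  classical
  have hu : MeasurableSet {y | ∃! c, P y c} := by
    have e1 : {y | ∃! c, P y c} = ⋃ c : M, ({y | P y c} ∩ ⋂ d : M, ({y | P y d}ᶜ ∪ {_y | d = c})) := by
      ext y
      simp only [mem_iUnion, mem_inter_iff, mem_iInter, mem_union, mem_compl_iff, mem_ofPred_eq]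
      refine exists_congr fun c => and_congr_right fun _ => forall_congr' fun d => ?_
      exact imp_iff_not_or
    rw [e1]
    exact MeasurableSet.iUnion fun c => (h c).inter (MeasurableSet.iInter fun d =>
      (h d).compl.union (MeasurableSet.const _))
  have e2 : {y | pick (P y) = v} = ({y | ∃! c, P y c} ∩ {y | P y v}) ∪
      ({y | ∃! c, P y c}ᶜ ∩ {_y | (0 : M) = v}) := by
    ext y
    simp only [mem_inter_iff, mem_union, mem_compl_iff, mem_ofPred_eq]
    by_cases hy : ∃! c, P y c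
    · have h1 : pick (P y) = hy.choose := dif_pos hy
      rw [h1]
      constructor
      · rintro rfl
        exact Or.inl ⟨hy, hy.choose_spec.1⟩
      · rintro (⟨_, h2⟩ | ⟨h2, _⟩)
        · exact (hy.choose_spec.2 v h2).symm
        · exact absurd hy h2
    · have h1 : pick (P y) = 0 := dif_neg hy
      rw [h1]
      constructor
      · intro h2
        exact Or.inr ⟨hy, h2⟩
      · rintro (⟨h2, _⟩ | ⟨_, h2⟩)
        · exact absurd h2 hy
        · exact h2
  rw [e2]
  exact (hu.inter (h v)).union (hu.compl.inter (MeasurableSet.const _))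

/-- the order of a structure -/
def leS {n : ℕ} (φ : L.Formula (Fin n ⊕ Fin 2)) (S : L.Structure ℕ) (p : Fin n → ℕ) (x y : ℕ) :
    Prop := @Formula.Realize L ℕ S _ φ (Sum.elim p ![x, y])

/-- the measure of a structure -/
noncomputable def muS {M : Type} [Zero M] {n : ℕ} (ψ : M → L.Formula (Fin n ⊕ Fin 1))
    (S : L.Structure ℕ) (p : Fin n → ℕ) (x : ℕ) : M :=
  pick (fun c => @Formula.Realize L ℕ S _ (ψ c) (Sum.elim p ![x]))

/-- the ideal of a structure -/
def D0S {M : Type} [Zero M] {n : ℕ} (φ : L.Formula (Fin n ⊕ Fin 2))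
    (ψ : M → L.Formula (Fin n ⊕ Fin 1)) (G : Set (FT M)) (S : L.Structure ℕ) (p : Fin n → ℕ)
    (b : ℕ) : Prop := ∃ t ∈ G, ∀ k, tpc (leS φ S p) (muS ψ S p) k b = t k

theorem meas_form {β : Type} (χ : L.Formula β) (c : β → ℕ) :
    @MeasurableSet _ (SM L) {S : L.Structure ℕ | @Formula.Realize L ℕ S _ χ c} := by
  let _ : MeasurableSpace (L.Structure ℕ) := SM L
  have h1 : ∀ (n : ℕ) (F : L.Functions n) (v : Fin n → ℕ) (b : ℕ),
      MeasurableSet {S : L.Structure ℕ | @Structure.funMap L ℕ S n F v = b} := fun n F v b =>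
    MeasurableSpace.measurableSet_generateFrom (Or.inr ⟨n, F, v, b, rfl⟩)
  have h2 : ∀ (n : ℕ) (R : L.Relations n) (v : Fin n → ℕ),
      MeasurableSet {S : L.Structure ℕ | @Structure.RelMap L ℕ S n R v} := fun n R v =>
    MeasurableSpace.measurableSet_generateFrom (Or.inl ⟨n, R, v, rfl⟩)
  exact meas_realize (Y := L.Structure ℕ) (f := fun S => S) h1 h2 χ c _

theorem meas_le {n : ℕ} (φ : L.Formula (Fin n ⊕ Fin 2)) (p : Fin n → ℕ) (a b : ℕ) :
    @MeasurableSet _ (SM L) {S : L.Structure ℕ | leS φ S p a b} := meas_form φ _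

theorem meas_mu {M : Type} [Finite M] [Zero M] {n : ℕ} (ψ : M → L.Formula (Fin n ⊕ Fin 1))
    (p : Fin n → ℕ) (a : ℕ) (v : M) :
    @MeasurableSet _ (SM L) {S : L.Structure ℕ | muS ψ S p a = v} := by
  let _ : MeasurableSpace (L.Structure ℕ) := SM L
  exact meas_pick (fun (S : L.Structure ℕ) c => @Formula.Realize L ℕ S _ (ψ c) (Sum.elim p ![a]))
    (fun c => meas_form (ψ c) _) v

theorem meas_D0 (MEA : S_MEA) {M : Type} [Finite M] [Zero M] {n : ℕ}
    (φ : L.Formula (Fin n ⊕ Fin 2)) (ψ : M → L.Formula (Fin n ⊕ Fin 1)) (G : Set (FT M))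
    (hG : G.Countable) (p : Fin n → ℕ) (b : ℕ) :
    @MeasurableSet _ (SM L) {S : L.Structure ℕ | D0S φ ψ G S p b} := by
  let _ : MeasurableSpace (L.Structure ℕ) := SM L
  have e1 : {S : L.Structure ℕ | D0S φ ψ G S p b} =
      ⋃ t ∈ G, ⋂ k, {S : L.Structure ℕ | tpc (leS φ S p) (muS ψ S p) k b = t k} := by
    ext S
    simp only [mem_iUnion, mem_iInter, mem_ofPred_eq, D0S, exists_prop]
  rw [e1]
  exact MeasurableSet.biUnion hG fun t _ => MeasurableSet.iInter fun k =>
    (MEA M).2 (L.Structure ℕ) (fun S => leS φ S p) (fun S => muS ψ S p)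
      (fun a b => meas_le φ p a b) (fun a v => meas_mu ψ p a v) k b (t k)

/-! ### Invariance under isomorphisms -/

/-- `σ` preserves the truth of all formulas -/
def Tr (S S' : L.Structure ℕ) (σ : ℕ ≃ ℕ) : Prop :=
  ∀ (β : Type) (χ : L.Formula β) (c : β → ℕ),
    @Formula.Realize L ℕ S' _ χ (fun i => σ (c i)) ↔ @Formula.Realize L ℕ S _ χ c

theorem tr_iso {S S' : L.Structure ℕ} (e : @FirstOrder.Language.Equiv L ℕ ℕ S S') :
    Tr S S' (@FirstOrder.Language.Equiv.toEquiv L ℕ ℕ S S' e) := fun _ χ c =>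
  @StrongHomClass.realize_formula L ℕ ℕ S S' _ (@FirstOrder.Language.Equiv L ℕ ℕ S S') _ _ e χ c

theorem le_inv {S S' : L.Structure ℕ} {σ : ℕ ≃ ℕ} (h : Tr S S' σ) {n : ℕ}
    (φ : L.Formula (Fin n ⊕ Fin 2)) (p : Fin n → ℕ) :
    leS φ S p = fun x y => leS φ S' (fun i => σ (p i)) (σ x) (σ y) := by
  funext x y
  refine propext ?_
  unfold leS
  rw [← h _ φ (Sum.elim p ![x, y])]
  have h : (fun i => σ (Sum.elim p ![x, y] i)) =
      Sum.elim (fun i => σ (p i)) ![σ x, σ y] := by
    funext i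
    rcases i with i | i
    · rfl
    · fin_cases i <;> rfl
  rw [h]

theorem mu_inv {S S' : L.Structure ℕ} {σ : ℕ ≃ ℕ} (h : Tr S S' σ) {M : Type}
    [Zero M] {n : ℕ} (ψ : M → L.Formula (Fin n ⊕ Fin 1)) (p : Fin n → ℕ) :
    muS ψ S p = fun x => muS ψ S' (fun i => σ (p i)) (σ x) := by
  funext x
  unfold muS
  congr 1
  funext c
  refine propext ?_
  rw [← h _ (ψ c) (Sum.elim p ![x])]
  have h : (fun i => σ (Sum.elim p ![x] i)) = Sum.elim (fun i => σ (p i)) ![σ x] := by
    funext i
    rcases i with i | i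
    · rfl
    · fin_cases i
      rfl
  rw [h]

theorem D0_inv {S S' : L.Structure ℕ} {σ : ℕ ≃ ℕ} (h : Tr S S' σ) {M : Type}
    [Zero M] {n : ℕ} (φ : L.Formula (Fin n ⊕ Fin 2)) (ψ : M → L.Formula (Fin n ⊕ Fin 1))
    (G : Set (FT M)) (p : Fin n → ℕ) :
    D0S φ ψ G S p = fun x => D0S φ ψ G S' (fun i => σ (p i)) (σ x) := by
  funext b
  unfold D0S
  rw [le_inv h φ p, mu_inv h ψ p]
  refine propext (exists_congr fun t => and_congr_right fun _ => forall_congr' fun k => ?_)
  rw [tpc_inv σ (leS φ S' (fun i => σ (p i))) (muS ψ S' (fun i => σ (p i))) k b]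

/-! ### Structures which define a Boolean algebra -/

theorem le_dec {S : L.Structure ℕ} {M : Type} {n : ℕ} {p : Fin n → ℕ}
    {φ : L.Formula (Fin n ⊕ Fin 2)} {ψ : M → L.Formula (Fin n ⊕ Fin 1)} {bo : BooleanAlgebra ℕ}
    {mu : ℕ → M} (h : Dec S p φ ψ bo mu) : leS φ S p = bo.le := by
  funext x y
  exact propext (h.le ![x, y])

theorem mu_dec {S : L.Structure ℕ} {M : Type} [Zero M] {n : ℕ} {p : Fin n → ℕ}
    {φ : L.Formula (Fin n ⊕ Fin 2)} {ψ : M → L.Formula (Fin n ⊕ Fin 1)} {bo : BooleanAlgebra ℕ}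
    {mu : ℕ → M} (h : Dec S p φ ψ bo mu) : muS ψ S p = mu := by
  funext x
  unfold muS
  have h1 : (fun c => @Formula.Realize L ℕ S _ (ψ c) (Sum.elim p ![x])) = fun c => mu x = c := by
    funext c
    exact propext (h.val c ![x])
  rw [h1, pick_eq]

theorem D0_dec (MEA : S_MEA) {S : L.Structure ℕ} {M : Type} [Finite M] [Zero M] {n : ℕ}
    {p : Fin n → ℕ} {φ : L.Formula (Fin n ⊕ Fin 2)} {ψ : M → L.Formula (Fin n ⊕ Fin 1)}
    {bo : BooleanAlgebra ℕ} {mu : ℕ → M} (h : Dec S p φ ψ bo mu) (G : Set (FT M)) :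
    D0S φ ψ G S p = fun b => @ft M ℕ bo mu b ∈ G := by
  funext b
  unfold D0S
  rw [le_dec h, mu_dec h]
  refine propext ⟨?_, ?_⟩
  · rintro ⟨t, ht, h1⟩
    have h2 : @ft M ℕ bo mu b = t := by
      funext k
      rw [← h1 k, (MEA M).1 bo mu k b]
      rfl
    rw [h2]
    exact ht
  · intro hb
    exact ⟨_, hb, fun k => (MEA M).1 bo mu k b⟩

open Classical in
/-- Leaf ST3. -/
theorem ST3 (SIL : S_SIL) (MEA : S_MEA) (MEW : S_MEW) : S_ST3 := by
  intro L hL T M _ _ n φ ψ G hG hT
  obtain ⟨cd, hcd⟩ := exists_surjective_nat ((Fin n → ℕ) × ℕ)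
  let V : L.Structure ℕ → ℕ → (ℕ → Bool) := fun S m i =>
    decide (∃ b, leS φ S (cd m).1 b (cd m).2 ∧
      PPc (leS φ S (cd m).1) (D0S φ ψ G S (cd m).1) i b)
  have hV : ∀ S m i, V S m i = true ↔ ∃ b, leS φ S (cd m).1 b (cd m).2 ∧
      PPc (leS φ S (cd m).1) (D0S φ ψ G S (cd m).1) i b := fun S m i => decide_eq_true_iff
  have h1 := SIL L hL T V ?_ ?_ hT
  · refine (h1.image fun v : ℕ → Bool => {i : ℕ | v i = true}).mono ?_
    rintro w ⟨S, p, bo, mu, a, hS, hd, hm, rfl⟩
    obtain ⟨m, hm2⟩ := hcd (p, a)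
    refine ⟨V S m, ⟨S, hS, m, rfl⟩, ?_⟩
    ext i
    show V S m i = true ↔ _
    rw [hV, hm2, le_dec hd, D0_dec MEA hd G]
    exact ((MEW.1 bo (fun b => @ft M ℕ bo mu b ∈ G) i a)).symm
  · intro m i
    have e1 : {S : L.Structure ℕ | V S m i = true} = {S : L.Structure ℕ |
        ∃ b, leS φ S (cd m).1 b (cd m).2 ∧
          PPc (leS φ S (cd m).1) (D0S φ ψ G S (cd m).1) i b} := by
      ext S
      exact hV S m i
    rw [e1]
    let _ : MeasurableSpace (L.Structure ℕ) := SM L
    exact MEW.2 (L.Structure ℕ) (fun S => leS φ S (cd m).1) (fun S => D0S φ ψ G S (cd m).1)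
      (fun a b => meas_le φ (cd m).1 a b) (fun b => meas_D0 MEA φ ψ G hG (cd m).1 b) i (cd m).2
  · rintro S S' ⟨e⟩ m
    have he := tr_iso e
    obtain ⟨σ, hσ⟩ : ∃ σ : ℕ ≃ ℕ, Tr S S' σ := ⟨_, he⟩
    obtain ⟨m', hm'⟩ := hcd (fun i => σ ((cd m).1 i), σ (cd m).2)
    refine ⟨m', ?_⟩
    funext i
    rw [Bool.eq_iff_iff, hV, hV, hm', le_inv hσ φ (cd m).1, D0_inv hσ φ ψ G (cd m).1]
    refine Iff.trans σ.surjective.exists ?_
    refine exists_congr fun b => and_congr_right fun _ => ?_
    exact (PPc_inv σ (leS φ S' fun i => σ ((cd m).1 i))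
      (D0S φ ψ G S' fun i => σ ((cd m).1 i)) i b).symm

end Pool.Agent.N765.VB.ST3
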