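import Pool.Agent.N641.VB.Stm

set_option autoImplicit false

/-! Project VB, leaf LS: realised types are realised by the top element of a countable algebra. -/

namespace Pool.Agent.N765.VB

open Pool.Agent.N641.VB

/-- the sets of the closure under countably many binary operations -/
def clos {B ι : Type} (op : ι → B → B → B) (b0 : B) : ℕ → Set B
  | 0 => {b0}
  | n + 1 => clos op b0 n ∪ ⋃ i, Set.image2 (op i) (clos op b0 n) (clos op b0 n)

theorem clos_countable {B ι : Type} [Countable ι] (op : ι → B → B → B) (b0 : B) :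
    ∀ n, (clos op b0 n).Countable
  | 0 => Set.countable_singleton b0
  | n + 1 => by
    have h := clos_countable op b0 n
    exact h.union (Set.countable_iUnion fun i => h.image2 h (op i))

theorem clos_mono {B ι : Type} (op : ι → B → B → B) (b0 : B) : Monotone (clos op b0) :=
  monotone_nat_of_le_succ fun _ => Set.subset_union_left

/-- Countable sets closed under countably many binary operations. -/
theorem exists_closed {B ι : Type} [Countable ι] (op : ι → B → B → B) (b0 : B) :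
    ∃ S : Set B, S.Countable ∧ b0 ∈ S ∧ ∀ i, ∀ x ∈ S, ∀ y ∈ S, op i x y ∈ S := by
  refine ⟨⋃ n, clos op b0 n, Set.countable_iUnion (clos_countable op b0), ?_, ?_⟩
  · exact Set.mem_iUnion.2 ⟨0, rfl⟩
  · intro i x hx y hy
    obtain ⟨m, hm⟩ := Set.mem_iUnion.1 hx
    obtain ⟨n, hn⟩ := Set.mem_iUnion.1 hy
    refine Set.mem_iUnion.2 ⟨max m n + 1, Or.inr (Set.mem_iUnion.2 ⟨i, ?_⟩)⟩
    exact ⟨x, clos_mono op b0 (le_max_left m n) hm, y, clos_mono op b0 (le_max_right m n) hn, rfl⟩

section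

variable {M : Type} {B : Type} [BooleanAlgebra B]

open Classical in
/-- the witness of a split -/
noncomputable def wit (nu : B → M) (i : Σ k, TP M k × TP M k) (x : B) : B :=
  if h : ∃ b ≤ x, i.2 = (tp nu i.1 b, tp nu i.1 (x \ b)) then h.choose else ⊥

theorem wit_spec (nu : B → M) (k : ℕ) (x b : B) (hb : b ≤ x) :
    wit nu ⟨k, (tp nu k b, tp nu k (x \ b))⟩ x ≤ x ∧
      ((tp nu k b, tp nu k (x \ b)) : TP M k × TP M k) =
      (tp nu k (wit nu ⟨k, (tp nu k b, tp nu k (x \ b))⟩ x),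
        tp nu k (x \ wit nu ⟨k, (tp nu k b, tp nu k (x \ b))⟩ x)) := by
  have h : ∃ c ≤ x, ((tp nu k b, tp nu k (x \ b)) : TP M k × TP M k) =
      (tp nu k c, tp nu k (x \ c)) := ⟨b, hb, rfl⟩
  have h2 : wit nu ⟨k, (tp nu k b, tp nu k (x \ b))⟩ x = h.choose := dif_pos h
  rw [h2]
  exact h.choose_spec

/-- the operations -/
noncomputable def ops (nu : B → M) : Fin 2 ⊕ (Σ k, TP M k × TP M k) → B → B → B
  | Sum.inl 0, x, y => x ⊔ y
  | Sum.inl 1, x, _ => xᶜ
  | Sum.inr i, x, _ => wit nu i x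

end

/-- Countable elementary subalgebras. -/
theorem exists_sub {M : Type} [AddCommMonoid M] [Finite M] {B : Type} [BooleanAlgebra B] (nu : B → M) :
    ∃ C : BooleanSubalgebra B, Countable C ∧
      ∀ (k : ℕ) (c : C), tp (fun x : C => nu (x : B)) k c = tp nu k (c : B) := by
  have : ∀ k, Countable (TP M k × TP M k) := fun k => by
    have := tp_finite (M := M) k
    infer_instance
  obtain ⟨S, hS1, hS2, hS3⟩ := exists_closed (ops nu) (⊥ : B)
  have hsup : ∀ x ∈ S, ∀ y ∈ S, x ⊔ y ∈ S := fun x hx y hy => hS3 (Sum.inl 0) x hx y hy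
  have hcompl : ∀ x ∈ S, xᶜ ∈ S := fun x hx => hS3 (Sum.inl 1) x hx x hx
  have hwit : ∀ i, ∀ x ∈ S, wit nu i x ∈ S := fun i x hx => hS3 (Sum.inr i) x hx x hx
  let C : BooleanSubalgebra B :=
    { carrier := S
      supClosed' := fun x hx y hy => hsup x hx y hy
      infClosed' := fun x hx y hy => by
        have := hcompl _ (hsup _ (hcompl x hx) _ (hcompl y hy))
        rwa [compl_sup, compl_compl, compl_compl] at this
      compl_mem' := fun {x} hx => hcompl x hx
      bot_mem' := hS2 }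
  refine ⟨C, hS1.to_subtype, ?_⟩
  intro k
  induction k with
  | zero =>
    intro c
    refine propext ⟨fun h => ?_, fun h => Subtype.ext h⟩
    exact congrArg Subtype.val h
  | succ k ih =>
    intro c
    refine Prod.ext rfl (Set.ext fun q => ⟨?_, ?_⟩)
    · rintro ⟨b, hb, rfl⟩
      refine ⟨(b : B), hb, ?_⟩
      rw [ih b, ih (c \ b)]
      rfl
    · rintro ⟨b, hb, rfl⟩
      obtain ⟨h1, h2⟩ := wit_spec nu k (c : B) b hb
      refine ⟨⟨wit nu ⟨k, (tp nu k b, tp nu k ((c : B) \ b))⟩ c, hwit _ _ c.2⟩, h1, ?_⟩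
      refine h2.trans ?_
      rw [ih, ih]
      rfl

/-- Leaf LS. -/
theorem LS (TRN : S_TRN) (TOP : S_TOP) : S_LS := by
  intro M _ _ t ht
  obtain ⟨A, _, mu, a, hmu, hta⟩ := ht
  obtain ⟨B, _, e, he1, he2, he3, he4⟩ := TOP M A mu a hmu
  have h1 : ft mu (e ⊤) = ft (fun b => mu (e b)) (⊤ : B) := by
    refine TRN M B A (fun b => mu (e b)) mu e ⊤ (fun b _ c _ => he1 b c) ?_ (fun b _ => rfl) ⊤ le_rfl
    intro c hc
    rw [he3] at hc
    obtain ⟨b, hb⟩ := he2 c hc
    exact ⟨b, le_top, hb⟩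
  obtain ⟨C, hC1, hC2⟩ := exists_sub (fun b => mu (e b))
  refine ⟨C, inferInstance, fun x : C => mu (e (x : B)), hC1, ⟨he4.bot, ?_⟩, ?_⟩
  · intro x y hxy
    refine he4.sup (x : B) (y : B) ?_
    rw [disjoint_iff] at hxy ⊢
    exact congrArg Subtype.val hxy
  · rw [← hta, ← he3, h1]
    funext k
    exact hC2 k ⊤

end Pool.Agent.N765.VB
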